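import Pool.Agent.Helper7.SC.DP.Frames

set_option autoImplicit false

/-!
Few blocks are read by many outputs (HV).
-/

namespace Pool.Agent.Helper37.SC.DP

open Finset Pool.Agent.Helper7.SC Pool.Agent.Helper7.SC.DP

/-- a position lies in at most two of the windows -/
theorem two_windows {q r m : ℕ} (hq : 1 ≤ q) (j : ℕ) :
    #{B : Fin m | r + (B : ℕ) * q ≤ j ∧ j < r + ((B : ℕ) + 2) * q} ≤ 2 := by
  have h1 : ({B : Fin m | r + (B : ℕ) * q ≤ j ∧ j < r + ((B : ℕ) + 2) * q} : Finset (Fin m)).map
      Fin.valEmbedding ⊆ {(j - r) / q, (j - r) / q - 1} := by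
    intro B hB
    rw [Finset.mem_map] at hB
    obtain ⟨C, hC, rfl⟩ := hB
    rw [Finset.mem_filter] at hC
    obtain ⟨_, h2, h3⟩ := hC
    have h4 : (C : ℕ) ≤ (j - r) / q := by
      rw [Nat.le_div_iff_mul_le (by omega)]
      omega
    have h5 : (j - r) / q < (C : ℕ) + 2 := by
      rw [Nat.div_lt_iff_lt_mul (by omega)]
      omega
    rw [Finset.mem_insert, Finset.mem_singleton]
    show (C : ℕ) = _ ∨ (C : ℕ) = _
    omega
  calc #{B : Fin m | r + (B : ℕ) * q ≤ j ∧ j < r + ((B : ℕ) + 2) * q}
      = #(({B : Fin m | r + (B : ℕ) * q ≤ j ∧ j < r + ((B : ℕ) + 2) * q} :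
          Finset (Fin m)).map Fin.valEmbedding) := (Finset.card_map _).symm
    _ ≤ #({(j - r) / q, (j - r) / q - 1} : Finset ℕ) := Finset.card_le_card h1
    _ ≤ 2 := Finset.card_le_two

theorem stHv : StHv := by
  classical
  intro q r m v L hq hL hv T hT
  set dg : Fin m → ℕ := fun B =>
    #{B' ∈ range m | ∃ j ∈ T B', r + (B : ℕ) * q ≤ j ∧ j < r + ((B : ℕ) + 2) * q} with hdg
  -- the sum of the degrees
  have hsum : ∑ B, dg B ≤ 2 * m * v := by
    have h1 : ∀ B, dg B = ∑ B' ∈ range m, if ∃ j ∈ T B', r + (B : ℕ) * q ≤ j ∧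
        j < r + ((B : ℕ) + 2) * q then 1 else 0 := by
      intro B
      rw [hdg]
      simp only [Finset.card_filter]
    rw [Finset.sum_congr rfl (fun B _ => h1 B), Finset.sum_comm]
    have h2 : ∀ B' ∈ range m, (∑ B : Fin m, if ∃ j ∈ T B', r + (B : ℕ) * q ≤ j ∧
        j < r + ((B : ℕ) + 2) * q then 1 else 0) ≤ 2 * v := by
      intro B' hB'
      have h3 : ∀ B : Fin m, (if ∃ j ∈ T B', r + (B : ℕ) * q ≤ j ∧
          j < r + ((B : ℕ) + 2) * q then 1 else 0) ≤
          ∑ j ∈ T B', if r + (B : ℕ) * q ≤ j ∧ j < r + ((B : ℕ) + 2) * q then 1 else 0 := by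
        intro B
        split_ifs with h4
        · obtain ⟨j, hj, h5⟩ := h4
          calc 1 = if r + (B : ℕ) * q ≤ j ∧ j < r + ((B : ℕ) + 2) * q then 1 else 0 := by
                rw [if_pos h5]
            _ ≤ _ := Finset.single_le_sum (f := fun j => if r + (B : ℕ) * q ≤ j ∧
                j < r + ((B : ℕ) + 2) * q then 1 else 0) (fun _ _ => Nat.zero_le _) hj
        · exact Nat.zero_le _
      calc _ ≤ ∑ B : Fin m, ∑ j ∈ T B', (if r + (B : ℕ) * q ≤ j ∧
            j < r + ((B : ℕ) + 2) * q then 1 else 0) := Finset.sum_le_sum fun B _ => h3 B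
        _ = ∑ j ∈ T B', ∑ B : Fin m, (if r + (B : ℕ) * q ≤ j ∧
            j < r + ((B : ℕ) + 2) * q then 1 else 0) := Finset.sum_comm
        _ ≤ ∑ _j ∈ T B', 2 := by
            refine Finset.sum_le_sum fun j _ => ?_
            rw [← Finset.card_filter]
            exact two_windows hq j
        _ = 2 * #(T B') := by
            rw [Finset.sum_const, smul_eq_mul, mul_comm]
        _ ≤ 2 * v := Nat.mul_le_mul_left 2 (hT B' (Finset.mem_range.mp hB'))
    calc _ ≤ ∑ _B' ∈ range m, 2 * v := Finset.sum_le_sum h2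
      _ = 2 * m * v := by
          rw [Finset.sum_const, smul_eq_mul, Finset.card_range]
          ring
  refine ⟨univ.filter fun B => L * v < dg B, ?_, ?_⟩
  · have h1 : #(univ.filter fun B => L * v < dg B) * (L * v) ≤ ∑ B, dg B := by
      calc _ = ∑ _B ∈ univ.filter fun B => L * v < dg B, L * v := by
            rw [Finset.sum_const, smul_eq_mul]
        _ ≤ ∑ B ∈ univ.filter fun B => L * v < dg B, dg B :=
            Finset.sum_le_sum fun B hB => (Finset.mem_filter.mp hB).2.le
        _ ≤ ∑ B, dg B := Finset.sum_le_sum_of_subset (Finset.filter_subset _ _)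
    have h2 : (L * #(univ.filter fun B => L * v < dg B)) * v ≤ (2 * m) * v := by
      calc _ = #(univ.filter fun B => L * v < dg B) * (L * v) := by ring
        _ ≤ _ := h1.trans hsum
    exact Nat.le_of_mul_le_mul_right h2 (by omega)
  · intro β hβ
    have h1 : (range m).filter (fun B' => ∃ B ∈ β, ∃ j ∈ T B', r + (B : ℕ) * q ≤ j ∧
        j < r + ((B : ℕ) + 2) * q) ⊆ β.biUnion fun B => (range m).filter fun B' =>
          ∃ j ∈ T B', r + (B : ℕ) * q ≤ j ∧ j < r + ((B : ℕ) + 2) * q := by
      intro B' hB'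
      rw [Finset.mem_filter] at hB'
      obtain ⟨h2, B, hB, h3⟩ := hB'
      rw [Finset.mem_biUnion]
      exact ⟨B, hB, Finset.mem_filter.mpr ⟨h2, h3⟩⟩
    calc _ ≤ #(β.biUnion fun B => (range m).filter fun B' =>
            ∃ j ∈ T B', r + (B : ℕ) * q ≤ j ∧ j < r + ((B : ℕ) + 2) * q) := Finset.card_le_card h1
      _ ≤ ∑ B ∈ β, dg B := Finset.card_biUnion_le
      _ ≤ ∑ _B ∈ β, L * v := by
          refine Finset.sum_le_sum fun B hB => ?_
          by_contra hcon
          exact Finset.disjoint_left.mp hβ hB (Finset.mem_filter.mpr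
            ⟨Finset.mem_univ _, not_le.mp hcon⟩)
      _ = L * v * #β := by
          rw [Finset.sum_const, smul_eq_mul]
          ring

/-- the positions in the residue classes -/
theorem split_positions (q K : ℕ) (hq : 1 ≤ q) (P : ℕ → Prop) [DecidablePred P] :
    #{i ∈ range K | P i} ≤ (q - 1) +
      ∑ r ∈ range q, #{B ∈ range ((K - r) / q) | P (r + (B + 1) * q - 1)} := by
  classical
  have h1 : (range K).filter P ⊆ range (q - 1) ∪ (range q).biUnion fun r =>
      ((range ((K - r) / q)).filter fun B => P (r + (B + 1) * q - 1)).image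
        fun B => r + (B + 1) * q - 1 := by
    intro i hi
    rw [Finset.mem_filter, Finset.mem_range] at hi
    obtain ⟨hi, hP⟩ := hi
    rw [Finset.mem_union, Finset.mem_range]
    by_cases h2 : i < q - 1
    · exact Or.inl h2
    · right
      rw [Finset.mem_biUnion]
      have h3 := Nat.div_add_mod (i + 1) q
      have h4 : (i + 1) % q < q := Nat.mod_lt _ (by omega)
      have h5 : 1 ≤ (i + 1) / q := by
        rw [Nat.le_div_iff_mul_le (by omega)]
        omega
      obtain ⟨B, hB⟩ : ∃ B, (i + 1) / q = B + 1 := ⟨(i + 1) / q - 1, by omega⟩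
      have h6 : (i + 1) % q + (B + 1) * q - 1 = i := by
        rw [← hB, mul_comm]
        omega
      refine ⟨(i + 1) % q, Finset.mem_range.mpr h4, ?_⟩
      rw [Finset.mem_image]
      refine ⟨B, ?_, h6⟩
      rw [Finset.mem_filter, Finset.mem_range, h6]
      refine ⟨?_, hP⟩
      rw [← Nat.succ_le_iff, Nat.le_div_iff_mul_le (by omega)]
      have h7 : (B + 1) * q = q * ((i + 1) / q) := by
        rw [hB, mul_comm]
      show (B + 1) * q ≤ _
      omega
  calc _ ≤ #(range (q - 1) ∪ (range q).biUnion fun r =>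
      ((range ((K - r) / q)).filter fun B => P (r + (B + 1) * q - 1)).image
        fun B => r + (B + 1) * q - 1) := Finset.card_le_card h1
    _ ≤ #(range (q - 1)) + #((range q).biUnion fun r =>
      ((range ((K - r) / q)).filter fun B => P (r + (B + 1) * q - 1)).image
        fun B => r + (B + 1) * q - 1) := Finset.card_union_le _ _
    _ ≤ _ := by
        rw [Finset.card_range]
        refine Nat.add_le_add_left (Finset.card_biUnion_le.trans
          (Finset.sum_le_sum fun r _ => Finset.card_image_le)) _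

/-- the number of positions -/
theorem sum_classes_le (q K : ℕ) (hq : 1 ≤ q) : ∑ r ∈ range q, (K - r) / q ≤ K := by
  classical
  have h1 : ∑ r ∈ range q, (K - r) / q = #((range q).sigma fun r => range ((K - r) / q)) := by
    rw [Finset.card_sigma]
    simp
  rw [h1]
  calc _ ≤ #(range K) := by
        refine Finset.card_le_card_of_injOn (fun p => p.1 + (p.2 + 1) * q - 1) ?_ ?_
        · rintro ⟨r, B⟩ hp
          rw [Finset.mem_coe, Finset.mem_sigma, Finset.mem_range, Finset.mem_range] at hp
          obtain ⟨h2, h3⟩ := hp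
          simp only at h2 h3
          rw [← Nat.succ_le_iff, Nat.le_div_iff_mul_le (by omega)] at h3
          rw [Finset.mem_coe, Finset.mem_range]
          simp only
          have h4 : 1 ≤ (B + 1) * q := Nat.mul_pos (by omega) (by omega)
          have h5 : B.succ * q = (B + 1) * q := rfl
          omega
        · rintro ⟨r, B⟩ hp ⟨r', B'⟩ hp' h
          rw [Finset.mem_coe, Finset.mem_sigma, Finset.mem_range, Finset.mem_range] at hp hp'
          obtain ⟨h2, _⟩ := hp
          obtain ⟨h3, _⟩ := hp'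
          simp only at h2 h3 h
          have h4 : 1 ≤ (B + 1) * q := Nat.mul_pos (by omega) (by omega)
          have h5 : 1 ≤ (B' + 1) * q := Nat.mul_pos (by omega) (by omega)
          have h6 : r + (B + 1) * q = r' + (B' + 1) * q := by omega
          have h7 : r = r' := by
            have := congrArg (· % q) h6
            simp only [Nat.add_mul_mod_self_right, Nat.mod_eq_of_lt h2, Nat.mod_eq_of_lt h3]
              at this
            exact this
          subst h7
          have h8 : (B + 1) * q = (B' + 1) * q := by omega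
          have h9 : B + 1 = B' + 1 := Nat.eq_of_mul_eq_mul_right (by omega) h8
          have h10 : B = B' := by omega
          subst h10
          rfl
    _ = K := Finset.card_range K

theorem stRes : StRes := by
  classical
  intro b q K ε hb hq hε hK D h _ hD
  have hq0 : (0 : ℝ) < q := by exact_mod_cast (by omega : 0 < q)
  have hq1 : (1 : ℝ) ≤ q := by exact_mod_cast hq
  have hKpos : (0 : ℝ) < K := by
    by_contra hcon
    have h0 : (K : ℝ) ≤ 0 := not_lt.mp hcon
    nlinarith
  by_cases hD0 : D = ∅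
  · refine ⟨0, by omega, ∅, Finset.empty_subset _, ?_, ?_⟩
    · rw [hD0]
      simp
    · intro n hn
      exact absurd hn (Finset.notMem_empty n)
  have hDpos : (0 : ℝ) < #D := by
    have := Finset.card_pos.mpr (Finset.nonempty_iff_ne_empty.mpr hD0)
    exact_mod_cast this
  by_contra hcon
  push Not at hcon
  set X : ℕ → ℕ → ℕ := fun r n =>
    #{B ∈ range ((K - r) / q) | h n (r + (B + 1) * q - 1)} with hX
  have hXle : ∀ r n, (X r n : ℝ) ≤ (((K - r) / q : ℕ) : ℝ) := by
    intro r n
    have : X r n ≤ (K - r) / q := by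
      rw [hX]
      calc _ ≤ #(range ((K - r) / q)) := Finset.card_filter_le _ _
        _ = _ := Finset.card_range _
    exact_mod_cast this
  set α : ℝ := 1 / b + ε / 4 with hα
  have hα0 : 0 ≤ α := by positivity
  have key : ∀ r ∈ range q, ∑ n ∈ D, (X r n : ℝ) ≤
      (ε / (2 * q) + α) * #D * (((K - r) / q : ℕ) : ℝ) := by
    intro r hr
    set D' := D.filter fun n => α * (((K - r) / q : ℕ) : ℝ) ≤ (X r n : ℝ) with hD'
    have h1 : (#D' : ℝ) < ε / (2 * q) * #D := by
      by_contra h2
      rw [not_lt] at h2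
      obtain ⟨n, hn, h3⟩ := hcon r (Finset.mem_range.mp hr) D' (Finset.filter_subset _ _) h2
      rw [hD', Finset.mem_filter] at hn
      exact absurd hn.2 (not_le.mpr h3)
    have h2 : ∀ n ∈ D, (X r n : ℝ) ≤ (if n ∈ D' then (((K - r) / q : ℕ) : ℝ) else 0) +
        α * (((K - r) / q : ℕ) : ℝ) := by
      intro n hn
      split_ifs with h3
      · have := hXle r n
        have h4 : 0 ≤ α * (((K - r) / q : ℕ) : ℝ) := mul_nonneg hα0 (Nat.cast_nonneg _)
        linarith
      · have h4 : ¬ (α * (((K - r) / q : ℕ) : ℝ) ≤ (X r n : ℝ)) := fun h5 =>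
          h3 (Finset.mem_filter.mpr ⟨hn, h5⟩)
        rw [zero_add]
        exact (not_le.mp h4).le
    calc ∑ n ∈ D, (X r n : ℝ) ≤ ∑ n ∈ D, ((if n ∈ D' then (((K - r) / q : ℕ) : ℝ) else 0) +
          α * (((K - r) / q : ℕ) : ℝ)) := Finset.sum_le_sum h2
      _ = #D' * (((K - r) / q : ℕ) : ℝ) + #D * (α * (((K - r) / q : ℕ) : ℝ)) := by
          rw [Finset.sum_add_distrib, Finset.sum_const, nsmul_eq_mul, ← Finset.sum_filter,
            Finset.sum_const, nsmul_eq_mul]
          congr 3
          rw [hD', Finset.filter_mem_eq_inter, Finset.inter_eq_right.mpr (Finset.filter_subset _ _)]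
      _ ≤ _ := by
          have h3 : (0 : ℝ) ≤ (((K - r) / q : ℕ) : ℝ) := Nat.cast_nonneg _
          nlinarith
  have h1 : ∑ n ∈ D, (#{i ∈ range K | h n i} : ℝ) ≤
      (q - 1) * #D + (ε / (2 * q) + α) * #D * K := by
    calc ∑ n ∈ D, (#{i ∈ range K | h n i} : ℝ) ≤
          ∑ n ∈ D, (((q : ℝ) - 1) + ∑ r ∈ range q, (X r n : ℝ)) := by
          refine Finset.sum_le_sum fun n _ => ?_
          have h2 := split_positions q K hq (h n)
          have h3 : ((#{i ∈ range K | h n i} : ℕ) : ℝ) ≤ (((q - 1) + ∑ r ∈ range q, X r n : ℕ) : ℝ) :=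
            Nat.cast_le.mpr h2
          rw [Nat.cast_add, Nat.cast_sub hq, Nat.cast_sum, Nat.cast_one] at h3
          exact h3
      _ = (q - 1) * #D + ∑ r ∈ range q, ∑ n ∈ D, (X r n : ℝ) := by
          rw [Finset.sum_add_distrib, Finset.sum_const, nsmul_eq_mul, Finset.sum_comm, mul_comm]
      _ ≤ (q - 1) * #D + ∑ r ∈ range q, (ε / (2 * q) + α) * #D * (((K - r) / q : ℕ) : ℝ) :=
          add_le_add le_rfl (Finset.sum_le_sum key)
      _ ≤ _ := by
          rw [← Finset.mul_sum]
          refine add_le_add le_rfl (mul_le_mul_of_nonneg_left ?_ (by positivity))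
          exact_mod_cast sum_classes_le q K hq
  have h2 : ε / (2 * q) ≤ ε / 2 := by
    rw [div_le_div_iff₀ (by positivity) (by norm_num)]
    nlinarith
  have h3 : (1 / b + ε) * K * #D ≤ (q - 1) * #D + (ε / 2 + α) * #D * K := by
    calc _ ≤ _ := hD.trans h1
      _ ≤ _ := by
          have : 0 ≤ (#D : ℝ) * K := by positivity
          nlinarith
  have h4 : (1 / b + ε) * K ≤ (q - 1) + (ε / 2 + α) * K := by
    have h5 : ((1 / b + ε) * K) * #D ≤ ((q - 1) + (ε / 2 + α) * K) * #D := by
      calc _ ≤ _ := h3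
        _ = _ := by ring
    exact le_of_mul_le_mul_right h5 hDpos
  rw [hα] at h4
  nlinarith

end Pool.Agent.Helper37.SC.DP
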